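import Pool.Agent.R629.NF.Field

/-!
# Automorphic representations and the boundary values of the L-functions of all motives

Let `Π` be an automorphic representation of `GL(n)` over `ℚ`, algebraic or not, with the Satake matrices
`A_p`, and let `M_j`, `j ∈ J`, be a countable family of motives over `ℚ` with coefficients in number
fields `E_j`, for instance all motives for absolute Hodge cycles, with all number fields as coefficients,
each with an embedding `τ_j` of `E_j` in `ℂ`.  Let `C_{j,p}` be a matrix over `E_j` with the
characteristic polynomial of Frobenius of `M_j` at `p`; at the primes of bad reduction it may be any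
invertible matrix with eigenvalues of absolute value `≤ p^w`.  Let `w` be so large that the eigenvalues
of all these matrices are at most `p^w` in absolute value; so the L-functions, without the factors at
the primes in a finite set `S`, converge for `Re s > 1 + w` and have boundary values `l(t)`, `l_j(t)`
at almost all points `1 + w + it`.

The theorem: either `l(t)` is, for almost all `t`, transcendental over the field generated by the
boundary values of the L-functions of all motives, the numbers `t` and `p^{-it}` and any given
countable field.  Or `Π` is motivic virtually and up to a multiplicity, and in this case its Satake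
polynomials have coefficients in a number field, for almost all `p`.
-/

set_option autoImplicit false

namespace Pool.Agent.Results.MP_7742d9_nt.MotivicOrTranscendental

open MeasureTheory Filter Topology
open Pool.Agent.R629.SP Pool.Agent.R629.NF

/-- The matrices `A_p`. -/
def satake {n : ℕ} (A : Nat.Primes → GL (Fin n) ℂ) : Nat.Primes → Matrix (Fin n) (Fin n) ℂ :=
  fun p => (A p).val

/-- The matrices `τ_j(C_{j,p})`. -/
def frobenius {J : Type} {E : J → Type} [∀ j, Field (E j)] (τ : ∀ j, E j →+* ℂ) {m : J → ℕ}
    (C : ∀ j, Nat.Primes → GL (Fin (m j)) (E j)) (j : J) :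
    Nat.Primes → Matrix (Fin (m j)) (Fin (m j)) ℂ := fun p => (C j p).val.map (τ j)

/-- **Motivic or transcendental.**
* The Euler products have boundary functions on the line `Re s = 1 + w`.
* There are an integer `d > 0` and integers `e_j`, almost all zero, with
  `d [A_p] = ∑_j e_j [τ_j(C_{j,p})]` for all but finitely many `p ∉ S`, where `[X]` is the divisor of
  the eigenvalues of `X`, if and only if, for some countable field `k` and almost all `t`, the number
  `l(t)` is algebraic over `k(l_j(t), t, p^{-it} : j ∈ J, p prime)`.  Otherwise it is transcendental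
  over this field, for every countable field `k` and almost all `t`.
* In the first case there is a number field `E₀ ⊆ ℂ` such that the characteristic polynomial of `A_p`
  has coefficients in `E₀` for all but finitely many `p`. -/
theorem result (n : ℕ) (S : Finset ℕ) (w : ℝ) (A : Nat.Primes → GL (Fin n) ℂ)
    (hA : Bd S (satake A) w) (J : Type) [Countable J] (E : J → Type) [∀ j, Field (E j)]
    [∀ j, NumberField (E j)] (τ : ∀ j, E j →+* ℂ) (m : J → ℕ)
    (C : ∀ j, Nat.Primes → GL (Fin (m j)) (E j)) (hC : ∀ j, Bd S (frobenius τ C j) w) :
    ((∃ l : ℝ → ℂ, IsBoundary S (satake A) w l) ∧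
      ∀ j, ∃ l : ℝ → ℂ, IsBoundary S (frobenius τ C j) w l) ∧
    ∀ (l : ℝ → ℂ) (lM : J → ℝ → ℂ), IsBoundary S (satake A) w l →
      (∀ j, IsBoundary S (frobenius τ C j) w (lM j)) →
      (VirtualRelation S (satake A) (frobenius τ C) ↔ DependentOn l lM) ∧
      (DependentOn l lM ∨ IndependentOf l lM) ∧
      (DependentOn l lM → ∃ E₀ : IntermediateField ℚ ℂ, FiniteDimensional ℚ E₀ ∧
        {p : Nat.Primes | (p : ℕ) ∉ S ∧ ¬ ∀ i, (satake A p).charpoly.coeff i ∈ E₀}.Finite) := by
  refine ⟨⟨⟨_, isBoundary_bd hA⟩, fun j => ⟨_, isBoundary_bd (hC j)⟩⟩, fun l lM hl hlM => ?_⟩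
  have h1 := dichotomy (tfae_gen hA hC
    (fun p _ => ((Matrix.isUnit_iff_isUnit_det _).1 (A p).isUnit).ne_zero)
    (fun j p _ => by
      unfold frobenius
      have h2 : ((C j p).val.map (τ j)).det = τ j (C j p).val.det := (RingHom.map_det _ _).symm
      rw [h2]
      exact fun h => ((Matrix.isUnit_iff_isUnit_det _).1 (C j p).isUnit).ne_zero
        ((map_eq_zero _).1 h)) hl hlM)
  exact ⟨h1.1, h1.2, fun h => rational_of_relation τ (fun j p => (C j p).val) (h1.1.2 h)⟩

end Pool.Agent.Results.MP_7742d9_nt.MotivicOrTranscendental
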