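import Pool.Agent.R401.Ind

/-!
# Congruences with a motive at a positive proportion of the places

Let `Π` be an algebraic cuspidal automorphic representation of `GL_n`, `n ≥ 2`, over the number
field `K` (for example `K = ℚ`), and suppose that there is an `l`-adic Galois representation `V`
attached to `Π` whose restriction to each open subgroup is irreducible. Let `W` be the `l`-adic
realization of a motive `N` of *any* rank `m`, for example `W = H^i(X ⊗ K̄, ℚ̄_l)(j)` for a smooth
projective variety `X`. Suppose only that for the places `v` in *some* set `T` of positive upper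
density the traces `tr (Π_v)` and `ζ_v tr (N_v)` are congruent modulo `N(v) ^ (w / 2)`, where `w` is
the weight and the multipliers `ζ_v` belong to a finite set: the numbers
`(tr (Π_v) - ζ_v tr (N_v)) ^ 2 / N(v) ^ w` are integral, up to a fixed denominator, and their
conjugates are bounded in the mean (by the theory of Rankin and Selberg, and by Deligne). Then `V` is
motivic, in the following sense: there is a finite Galois extension `K'` of `K` such that `V` is
isomorphic to a subquotient of `W ⊗ H^0(Spec K' ⊗ K̄)`, the realization of the motive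
`N ⊗ h(Spec K')`; for `W = H^i(X ⊗ K̄)(j)` this is the cohomology group `H^i(X' ⊗ K̄)(j)` of the
variety `X' = X ⊗ K'`, considered as a variety over `K`.

Moreover `m ≥ n`, so that there are no congruences of this kind with motives of smaller rank: for
each finite set `Z` of multipliers the set of the places `v` with a congruence
`tr (Π_v) ≡ ζ tr (N_v)`, `ζ ∈ Z`, has density zero (as a set of positive upper density would be a
set `T` as above). The case `W = 0` says that the set of places where `tr (Π_v)` is divisible by
`N(v) ^ (w / 2)` has density zero. Nothing is supposed about equality of traces, about ramification,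
and about the restriction of the representations to the places above `l`.

Proof. Chebotarev's theorem for closed sets shows that a closed set of elements of positive Haar
measure is defined by one of finitely many equations `tr V(w/2) - ζ tr W(w/2) = c`; by the theorem
`Pool.Agent.R401.Hm.exists_coset` the equation holds on a coset of an open normal subgroup `H`, and
by Burnside's theorem the restriction of `V` to `H` is a subquotient of the restriction of `W`. By
Frobenius reciprocity `V` is a subquotient of the induced representation, which is `W ⊗ F[G/H]`.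
-/

set_option autoImplicit false

namespace Pool.Agent.Results.MP_7742d9_nt.SparseCongruences

open NumberField IsDedekindDomain Filter Matrix

/-- the absolute Galois group of the field `K`, with the Krull topology -/
abbrev AbsGal (K : Type) [Field K] : Type := Gal(AlgebraicClosure K/K)

/-- `g` is an (arithmetic) Frobenius element at a maximal ideal `Q` of the ring of all algebraic
integers which lies above the finite place `v` of `K`. -/
def IsFrobenius {K : Type} [Field K] [NumberField K] (v : HeightOneSpectrum (𝓞 K))
    (g : AbsGal K) : Prop :=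
  ∃ Q : Ideal (𝓞 (AlgebraicClosure K)), Q.IsMaximal ∧
    Q.comap (algebraMap (𝓞 K) (𝓞 (AlgebraicClosure K))) = v.asIdeal ∧
    ∀ x : 𝓞 (AlgebraicClosure K), g • x - x ^ Ideal.absNorm v.asIdeal ∈ Q

section
variable {K F : Type} [Field K] [Field F] {n m : ℕ}

/-- the matrix of `g` -/
noncomputable def mat (V : AbsGal K →* GL (Fin n) F) (g : AbsGal K) : Matrix (Fin n) (Fin n) F :=
  (V g : GL (Fin n) F)

/-- The restriction of `V` to every open subgroup of the absolute Galois group is absolutely
irreducible: the matrices of the elements of the subgroup span the space of all matrices. -/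
def StronglyIrreducible (V : AbsGal K →* GL (Fin n) F) : Prop :=
  ∀ H : Subgroup (AbsGal K), IsOpen (H : Set (AbsGal K)) →
    Submodule.span F {X | ∃ h ∈ H, X = mat V h} = ⊤

/-- The action of `g` on the functions on `G / H` with values in the space of `W`, that is, on the
tensor product of `W` with the permutation representation `F[G / H]`. -/
noncomputable def tensorAction (H : Subgroup (AbsGal K)) (W : AbsGal K →* GL (Fin m) F)
    (g : AbsGal K) (y : AbsGal K ⧸ H → Fin m → F) : AbsGal K ⧸ H → Fin m → F :=
  fun x => mat W g *ᵥ y (g⁻¹ • x)

/-- `V` is isomorphic to a subquotient of `W ⊗ F[G / H]`: there is a stable subspace `Y` of this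
space with an equivariant linear map from `Y` onto the space of `V` (extended in some way to a linear
map `f` on the whole space). -/
def IsSubquotientOfTensor (V : AbsGal K →* GL (Fin n) F) (W : AbsGal K →* GL (Fin m) F)
    (H : Subgroup (AbsGal K)) : Prop :=
  ∃ (Y : Submodule F (AbsGal K ⧸ H → Fin m → F)) (f : (AbsGal K ⧸ H → Fin m → F) →ₗ[F] (Fin n → F)),
    (∀ g, ∀ y ∈ Y, tensorAction H W g y ∈ Y) ∧ Y.map f = ⊤ ∧
    ∀ g, ∀ y ∈ Y, f (tensorAction H W g y) = mat V g *ᵥ f y

end

/-- **Congruences with a motive of any rank at a positive proportion of the places.** -/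
theorem result {K : Type} [Field K] [NumberField K] (p : ℕ) [Fact p.Prime] {F : Type}
    [NormedField F] [NormedAlgebra ℚ_[p] F] {n m : ℕ} (hn : 2 ≤ n)
    (V : AbsGal K →* GL (Fin n) F) (hV : Continuous V) (hirr : StronglyIrreducible V)
    (W : AbsGal K →* GL (Fin m) F) (hW : Continuous W)
    -- the field of coefficients, the set of places, the multipliers, and the differences
    {E : Type} [Field E] [NumberField E] (τ : E →+* F)
    (T : Set (HeightOneSpectrum (𝓞 K))) (Z : Finset E) (ζ a : HeightOneSpectrum (𝓞 K) → E)
    (hζ : ∀ v ∈ T, ζ v ∈ Z)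
    (htr : ∀ v ∈ T, ∀ g, IsFrobenius v g →
      (mat V g⁻¹).trace - τ (ζ v) * (mat W g⁻¹).trace = τ (a v))
    -- they are divisible, up to a bounded denominator
    (w : ℤ) {d : ℕ} (hd : 0 < d) (b : HeightOneSpectrum (𝓞 K) → 𝓞 E)
    (hdiv : ∀ v ∈ T, (d : E) * a v ^ 2 = (Ideal.absNorm v.asIdeal : E) ^ w * b v)
    -- the upper density of `T` is positive, and the mean of the conjugates is bounded
    {δ : ℝ} (hδ : 0 < δ) (C : ℝ)
    (hT : ∃ᶠ x : ℕ in atTop,
      δ * Nat.primeCounting x ≤
        ({v : HeightOneSpectrum (𝓞 K) | Ideal.absNorm v.asIdeal ≤ x ∧ v ∈ T}.ncard : ℝ) ∧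
      ∑ᶠ v ∈ {v : HeightOneSpectrum (𝓞 K) | Ideal.absNorm v.asIdeal ≤ x ∧ v ∈ T},
        ∑ σ : E →+* ℂ, ‖σ (b v)‖ ≤ C * Nat.primeCounting x) :
    n ≤ m ∧ ∃ H : Subgroup (AbsGal K), H.Normal ∧ IsOpen (H : Set (AbsGal K)) ∧
      IsSubquotientOfTensor V W H := by
  obtain ⟨H, hHn, hHo, Y, f, hY, hf, he⟩ := Pool.Agent.R401.Pf.sub p V hV W hW hirr hn τ w T Z ζ a b
    hd hζ htr hdiv hδ C (by
      refine (hT.and_eventually (Nat.tendsto_primeCounting.eventually_gt_atTop 0)).mono ?_
      rintro N ⟨⟨h1, h2⟩, h3⟩
      have h4 : (0 : ℝ) < (Nat.primeCounting N : ℝ) := by exact_mod_cast h3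
      refine ⟨?_, h2⟩
      unfold Pool.Agent.W401.Cheb.dens
      rw [le_div_iff₀ h4]
      exact h1)
  have : Finite (AbsGal K ⧸ H) := Subgroup.quotient_finite_of_isOpen H hHo
  refine ⟨?_, H, hHn, hHo, Pool.Agent.R401.Ind.induced H V W Y f hY hf he⟩
  have h1 := Submodule.finrank_map_le f Y
  rw [hf, finrank_top, Module.finrank_fin_fun] at h1
  have h2 := Submodule.finrank_le Y
  rw [Module.finrank_fin_fun] at h2
  exact h1.trans h2

end Pool.Agent.Results.MP_7742d9_nt.SparseCongruences
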