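import Pool.Agent.R696.TF.Sub

/-!
# The motives of algebraic cuspidal representations and trilinear forms

For every number field `ε` let `𝓜 ε` be the category of motives over `ℚ` with coefficients in `ε` for
absolute Hodge cycles, which is abelian and semisimple (Deligne). For every separated scheme `X` of
finite type over `ℚ` let `H_i(X)(-j)` be the sum of the graded pieces `gr^W_w` of its Borel-Moore
homology, twisted, with coefficients in `ε`; these are objects of `𝓜 ε` by the construction of Deligne of
the weight filtration from smooth projective varieties (Jannsen), and the long exact sequences of mixed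
realizations of a closed subscheme and its complement give long exact sequences of the graded pieces in
`𝓜 ε` (`Homology`; for all the fields of this structure see `Pool/Agent/R696/TF/Cat.lean`).

`Att Π ε M` is the relation of Q1 between an algebraic cuspidal representation `Π` of a `GL_n(𝔸)` and a
motive `M` with coefficients in `ε`: `ε` contains `ℚ(Π)`, `M` is absolutely irreducible, pure and of
rank `n`, with the Hodge numbers (1) and the local representations (2). In the theorem it is any
relation which holds only for irreducible motives.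

Let `S` be the class of the smooth projective schemes. By resolution of singularities every smooth `X`
of dimension at most `d` is birational to a member of `S` of dimension at most `d` (`Models`). Every
motive is a submotive of some `H_i(X)(-j)`, `X ∈ S` (`H_i(X)` being dual to `H^i(X)`; a direct sum occurs
in a disjoint union). So the first assertion in part 2 is Q1.

The hypersurface of a trilinear form `T` over `ℚ` is the affine cubic hypersurface `T(x, y, z) = 1`
(`hypS T`), `x`, `y`, `z` being three blocks of variables of any sizes. It is smooth.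

*Proof.* In a semisimple category a simple subobject of the middle term of an exact sequence `A → B → D`
is a subobject of `A` or of `D`. So every property of simple motives passes to the third of the schemes
`X`, `Z`, `X - Z` from two of them, and is invariant under affine bundles; now the universality of the
trilinear forms (starting library) applies.
-/

set_option autoImplicit false

open CategoryTheory CategoryTheory.Limits AlgebraicGeometry Pool.Agent.R696.TF Pool.Agent.Y116.UV
  Pool.Agent.Z125.UN

namespace Pool.Agent.Results.MP_7742d9_nt.TrilinearForms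

universe u v

section

variable {𝓜 : Type u} [Category.{v} 𝓜] [Abelian 𝓜]

/-- All simple subobjects of the homology of `X` have the property `Q`. -/
def OnSimple {k : Type} [Field k] (Q : 𝓜 → Prop) (H : Homology k 𝓜) (X : Sch k) : Prop :=
  ∀ (i j : ℤ) (B : 𝓜) [Simple B] (f : B ⟶ H.obj i j X) [Mono f], Q B

/-- `B` is a subobject of the homology of `X`, in some bidegree. -/
def OccursIn {k : Type} [Field k] (H : Homology k 𝓜) (B : 𝓜) (X : Sch k) : Prop :=
  ∃ (i j : ℤ) (f : B ⟶ H.obj i j X), Mono f

/-- all simple subobjects have the property `Q` -/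
def AllSimple (Q : 𝓜 → Prop) (A : 𝓜) : Prop := ∀ (B : 𝓜) [Simple B] (f : B ⟶ A) [Mono f], Q B

theorem allSimple_sumClosed (Q : 𝓜 → Prop) : SumClosed (AllSimple Q) where
  iso e h B _ f _ := h B (f ≫ e.inv)
  sum A₁ A₂ h₁ h₂ B _ f _ := by
    by_cases h : f ≫ (biprod.fst : A₁ ⊞ A₂ ⟶ A₁) = 0
    · have h' : f ≫ (biprod.snd : A₁ ⊞ A₂ ⟶ A₂) ≠ 0 := by
        intro h'
        have h0 : f = 0 := by
          apply biprod.hom_ext
          · rw [h, zero_comp]
          · rw [h', zero_comp]
        exact Simple.not_isZero B ((IsZero.iff_id_eq_zero B).2 (by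
          rw [← cancel_mono f, h0, comp_zero, zero_comp]))
      have := mono_of_nonzero_from_simple h'
      exact h₂ B (f ≫ biprod.snd)
    · have := mono_of_nonzero_from_simple h
      exact h₁ B (f ≫ biprod.fst)

theorem holdsOn_iff {k : Type} [Field k] (Q : 𝓜 → Prop) (H : Homology k 𝓜) (X : Sch k) :
    HoldsOn (AllSimple Q) H X ↔ OnSimple Q H X := by
  constructor
  · intro h i j B _ f _
    exact h i j B f B (𝟙 B)
  · intro h i j A g _ B _ f _
    exact h i j B (f ≫ g)

/-- the main equivalences for properties of simple subobjects -/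
theorem main_simple {k : Type} [Field k] [CharZero k] (hs : Semisimple 𝓜) (Q : 𝓜 → Prop)
    (H : Homology k 𝓜) (S : Sch k → Prop) (hS : Models S) (hpt : OnSimple Q H (aff k k)) (d : ℕ) :
    [∀ X : Sch k, FT True X → S X → topologicalKrullDim X.left ≤ d → OnSimple Q H X,
      ∀ X : Sch k, FT True X → topologicalKrullDim X.left ≤ d → OnSimple Q H X,
      ∀ (a b c : ℕ) (T : Fin a → Fin b → Fin c → k), (a ≤ d + 2 ∨ b ≤ d + 2 ∨ c ≤ d + 2) →
        OnSimple Q H (hypS T)].TFAE := by
  have hM := H.mid (her_thick hs (allSimple_sumClosed Q))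
    (fun i j => (holdsOn_iff Q H _).2 hpt i j)
  have h2 := hM.main_dim hS
  have key : ∀ X : Sch k, All (fun i j X => Her (AllSimple Q) (H.obj i j X)) X ↔ OnSimple Q H X :=
    fun X => holdsOn_iff Q H X
  simp only [ClassLe, DimLe, Block, key] at h2
  exact h2 d

/-- `B` occurs in the homology of a member of `S` of dimension at most `d`. -/
def InClass {k : Type} [Field k] (H : Homology k 𝓜) (S : Sch k → Prop) (d : ℕ) (B : 𝓜) : Prop :=
  ∃ X : Sch k, FT True X ∧ S X ∧ topologicalKrullDim X.left ≤ d ∧ OccursIn H B X

/-- `B` occurs in the homology of the point or of the hypersurface of a trilinear form one of whose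
blocks has at most `d + 2` variables. -/
def InTri {k : Type} [Field k] (H : Homology k 𝓜) (d : ℕ) (B : 𝓜) : Prop :=
  OccursIn H B (aff k k) ∨ ∃ (a b c : ℕ) (T : Fin a → Fin b → Fin c → k),
    (a ≤ d + 2 ∨ b ≤ d + 2 ∨ c ≤ d + 2) ∧ OccursIn H B (hypS T)

theorem class_iff_tri {k : Type} [Field k] [CharZero k] (hs : Semisimple 𝓜) (H : Homology k 𝓜)
    (S : Sch k → Prop) (hpoint : S (aff k k)) (hS : Models S) (d : ℕ) (B : 𝓜) (hB : Simple B) :
    InClass H S d B ↔ InTri H d B := by
  have hft : FT True (aff k k) := ft_aff True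
  have hdim0 : topologicalKrullDim (aff k k).left ≤ d := by
    have h0 : topologicalKrullDim (aff k k).left = 0 := by
      rw [topDim_aff]
      exact ringKrullDim_eq_zero_of_field k
    rw [h0]
    exact_mod_cast Nat.zero_le d
  constructor
  · rintro ⟨X, hX, -, hXd, i, j, f, hf⟩
    have h := main_simple hs (InTri H d) H S hS
      (fun i j B _ f hf => Or.inl ⟨i, j, f, hf⟩) d
    have h1 := (h.out 2 1).1 (by
      intro a b c T hT i j B _ f hf
      exact Or.inr ⟨a, b, c, T, hT, i, j, f, hf⟩)
    exact h1 X hX hXd i j B f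
  · intro h0
    have h := main_simple hs (InClass H S d) H S hS
      (fun i j B _ f hf => ⟨_, hft, hpoint, hdim0, i, j, f, hf⟩) d
    have h1 := (h.out 0 2).1 (by
      intro X hX hSX hd i j B _ f hf
      exact ⟨X, hX, hSX, hd, i, j, f, hf⟩)
    rcases h0 with ⟨i, j, f, hf⟩ | ⟨a, b, c, T, hT, i, j, f, hf⟩
    · exact ⟨_, hft, hpoint, hdim0, i, j, f, hf⟩
    · exact h1 a b c T hT i j B f

end

/-- **Clozel's conjecture and trilinear forms.**
1. An irreducible motive occurs in the homology of a smooth projective scheme of dimension at most `d`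
   if and only if it occurs in the homology of the point or of a hypersurface `T(x, y, z) = 1`, `T` a
   trilinear form over `ℚ` with a block of at most `d + 2` variables.
2. Clozel's conjecture (every `Π` has a motive) is equivalent to: every `Π` has a motive which occurs in
   the homology of the point or of a hypersurface `T(x, y, z) = 1`.
3. For all `Π` and `d`: `Π` has a motive in the homology of smooth projective schemes of dimension at
   most `d` if and only if it has one in the homology of the point or of a hypersurface as in 1.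
4. The hypersurfaces are smooth. -/
theorem result (J : Type) (𝓜 : J → Type u) [∀ ε, Category.{v} (𝓜 ε)] [∀ ε, Abelian (𝓜 ε)]
    (hs : ∀ ε, Semisimple (𝓜 ε)) (H : ∀ ε, Homology ℚ (𝓜 ε)) (S : Sch ℚ → Prop)
    (hpoint : S (aff ℚ ℚ)) (hS : Models S) (Aut : Type) (Att : Aut → ∀ ε, 𝓜 ε → Prop)
    (hAtt : ∀ π ε M, Att π ε M → Simple M)
    (hall : ∀ ε (M : 𝓜 ε), Simple M → ∃ d, InClass (H ε) S d M) :
    (∀ ε (M : 𝓜 ε), Simple M → ∀ d : ℕ, InClass (H ε) S d M ↔ InTri (H ε) d M) ∧
    ((∀ π : Aut, ∃ ε M, Att π ε M) ↔ ∀ π : Aut, ∃ ε M, Att π ε M ∧ ∃ d, InTri (H ε) d M) ∧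
    (∀ (π : Aut) (d : ℕ), (∃ ε M, Att π ε M ∧ InClass (H ε) S d M) ↔
      ∃ ε M, Att π ε M ∧ InTri (H ε) d M) ∧
    ∀ (a b c : ℕ) (T : Fin a → Fin b → Fin c → ℚ), Smooth (hypS T).hom := by
  have key : ∀ ε (M : 𝓜 ε), Simple M → ∀ d : ℕ, InClass (H ε) S d M ↔ InTri (H ε) d M :=
    fun ε M hM d => class_iff_tri (hs ε) (H ε) S hpoint hS d M hM
  refine ⟨key, ⟨fun h π => ?_, fun h π => ?_⟩, fun π d => ⟨?_, ?_⟩,
    fun _ _ _ _ => Pool.Agent.Z125.UN.smooth_hypS _⟩
  · obtain ⟨ε, M, hM⟩ := h π
    obtain ⟨d, hd⟩ := hall ε M (hAtt π ε M hM)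
    exact ⟨ε, M, hM, d, (key ε M (hAtt π ε M hM) d).1 hd⟩
  · obtain ⟨ε, M, hM, -⟩ := h π
    exact ⟨ε, M, hM⟩
  · rintro ⟨ε, M, hM, hd⟩
    exact ⟨ε, M, hM, (key ε M (hAtt π ε M hM) d).1 hd⟩
  · rintro ⟨ε, M, hM, hd⟩
    exact ⟨ε, M, hM, (key ε M (hAtt π ε M hM) d).2 hd⟩

end Pool.Agent.Results.MP_7742d9_nt.TrilinearForms
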